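import Pool.Agent.Helper3_PPZ.Stmts
import Pool.Agent.Helper85_PPX.Cho

/-! Squad PPZ, module POL: lower bound for the degree in `z` of the Chow form. -/

set_option autoImplicit false

universe u

namespace Pool.Agent.PPZ.H85

open MvPolynomial PPX

section

variable {k : Type u} [Field k]

/-- the variable `1` becomes the variable of the polynomial ring -/
noncomputable def Pz : MvPolynomial (Fin 3) k ≃ₐ[k] Polynomial (MvPolynomial (Fin 2) k) :=
  (renameEquiv k (Equiv.swap (0 : Fin 3) 1)).trans (finSuccEquiv k 2)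

theorem Pz_apply (F : MvPolynomial (Fin 3) k) :
    Pz F = finSuccEquiv k 2 (rename (Equiv.swap (0 : Fin 3) 1) F) := rfl

theorem Pz_X0 : Pz (k := k) (X 0) = Polynomial.C (X 0) := by
  rw [Pz_apply, rename_X]
  have : Equiv.swap (0 : Fin 3) 1 0 = Fin.succ (0 : Fin 2) := by decide
  rw [this, finSuccEquiv_X_succ]

theorem Pz_X1 : Pz (k := k) (X 1) = Polynomial.X := by
  rw [Pz_apply, rename_X]
  have : Equiv.swap (0 : Fin 3) 1 1 = 0 := by decide
  rw [this, finSuccEquiv_X_zero]

theorem Pz_X2 : Pz (k := k) (X 2) = Polynomial.C (X 1) := by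
  rw [Pz_apply, rename_X]
  have : Equiv.swap (0 : Fin 3) 1 2 = Fin.succ (1 : Fin 2) := by decide
  rw [this, finSuccEquiv_X_succ]

theorem Pz_deg (F : MvPolynomial (Fin 3) k) : (Pz F).natDegree = degreeOf 1 F := by
  rw [Pz_apply, natDegree_finSuccEquiv]
  have : (0 : Fin 3) = Equiv.swap (0 : Fin 3) 1 1 := by decide
  nth_rewrite 1 [this]
  rw [degreeOf_rename_of_injective (Equiv.injective _)]

/-- the substitution `z = β` -/
noncomputable def sz (β : k) : MvPolynomial (Fin 3) k →ₐ[k] MvPolynomial (Fin 2) k :=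
  aeval ![X 0, C β, X 1]

theorem Pz_eval (β : k) (F : MvPolynomial (Fin 3) k) :
    (Pz F).eval (C β) = sz β F := by
  have h2 : (Polynomial.evalRingHom (C β : MvPolynomial (Fin 2) k)).comp
      ((Pz (k := k)).toAlgHom).toRingHom = (sz β).toRingHom := by
    apply MvPolynomial.ringHom_ext
    · intro r
      have e1 : ((Pz (k := k)).toAlgHom).toRingHom (C r) = Polynomial.C (C r) :=
        (Pz (k := k)).commutes r
      rw [RingHom.comp_apply, e1, Polynomial.coe_evalRingHom, Polynomial.eval_C]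
      exact ((sz β).commutes r).symm
    · intro i
      rw [RingHom.comp_apply]
      change Polynomial.eval (C β) (Pz (X i)) = sz β (X i)
      unfold sz
      rw [aeval_X]
      fin_cases i
      · change Polynomial.eval (C β) (Pz (X 0)) = X 0
        rw [Pz_X0, Polynomial.eval_C]
      · change Polynomial.eval (C β) (Pz (X 1)) = C β
        rw [Pz_X1, Polynomial.eval_X]
      · change Polynomial.eval (C β) (Pz (X 2)) = X 1
        rw [Pz_X2, Polynomial.eval_C]
  exact congrArg (fun f => f F) h2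

theorem count_roots {N : ℕ} (b : Fin N → k) (hb : Function.Injective b)
    (F : MvPolynomial (Fin 3) k) (hF : F ≠ 0) (h : ∀ j, sz (b j) F = 0) : N ≤ degreeOf 1 F := by
  classical
  have hp : Pz F ≠ 0 := by
    intro h0
    exact hF ((map_eq_zero_iff _ (Pz (k := k)).injective).1 h0)
  rw [← Pz_deg F]
  have h1 : (Finset.univ.image fun j => (C (b j) : MvPolynomial (Fin 2) k)).card = N := by
    rw [Finset.card_image_of_injective _ (fun i j hij => hb (C_injective _ _ hij)),
      Finset.card_univ, Fintype.card_fin]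
  have h2 : (Finset.univ.image fun j => (C (b j) : MvPolynomial (Fin 2) k)) ⊆
      (Pz F).roots.toFinset := by
    intro y hy
    rw [Finset.mem_image] at hy
    obtain ⟨j, _, rfl⟩ := hy
    rw [Multiset.mem_toFinset, Polynomial.mem_roots hp, Polynomial.IsRoot, Pz_eval]
    exact h j
  calc N = _ := h1.symm
    _ ≤ (Pz F).roots.toFinset.card := Finset.card_le_card h2
    _ ≤ Multiset.card (Pz F).roots := Multiset.toFinset_card_le _
    _ ≤ _ := Polynomial.card_roots' _

theorem eval_sz (β : k) (p : Fin 2 → k) (F : MvPolynomial (Fin 3) k) :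
    eval p (sz β F) = eval ![p 0, β, p 1] F := by
  have h : ((aeval p : MvPolynomial (Fin 2) k →ₐ[k] k).comp (sz β)) =
      (aeval ![p 0, β, p 1] : MvPolynomial (Fin 3) k →ₐ[k] k) := by
    apply MvPolynomial.algHom_ext
    intro i
    rw [AlgHom.comp_apply, aeval_X]
    unfold sz
    rw [aeval_X]
    fin_cases i
    · change aeval p (X 0) = p 0
      rw [aeval_X]
    · change aeval p (C β) = β
      rw [algHom_C]
      rfl
    · change aeval p (X 1) = p 1
      rw [aeval_X]
  have h2 := congrArg (fun f => f F) h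
  exact h2

theorem two_points [Infinite k] (G : MvPolynomial (Fin 2) k) (hG : G ≠ 0) :
    ∃ p q : Fin 2 → k, eval p G ≠ 0 ∧ eval q G ≠ 0 ∧ p 1 ≠ q 1 := by
  have key : ∀ F : MvPolynomial (Fin 2) k, F ≠ 0 → ∃ p, eval p F ≠ 0 := by
    intro F hF
    by_contra hcon
    push Not at hcon
    apply hF
    apply MvPolynomial.funext
    intro p
    rw [hcon p, map_zero]
  obtain ⟨p, hp⟩ := key G hG
  have h1 : (X 1 - C (p 1) : MvPolynomial (Fin 2) k) ≠ 0 := by
    intro h0
    have h2 := congrArg (eval ![0, p 1 + 1]) h0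
    rw [map_sub, eval_X, eval_C, map_zero] at h2
    simp at h2
  obtain ⟨q, hq⟩ := key (G * (X 1 - C (p 1))) (mul_ne_zero hG h1)
  rw [map_mul, map_sub, eval_X, eval_C] at hq
  refine ⟨p, q, hp, left_ne_zero_of_mul hq, ?_⟩
  intro h
  apply right_ne_zero_of_mul hq
  rw [h, sub_self]

/-- the substitution of a constant for the third variable -/
noncomputable def sc (c : k) : MvPolynomial (Fin 3) k →ₐ[k] MvPolynomial (Fin 2) k :=
  aeval ![X 0, X 1, C c]

theorem sc_ne (β c x : k) (F : MvPolynomial (Fin 3) k) (h : eval ![x, β, c] F ≠ 0) :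
    aeval ![X 0, C β] (sc c F) ≠ (0 : MvPolynomial (Fin 2) k) := by
  intro h0
  apply h
  have h1 : ((aeval ![x, 0] : MvPolynomial (Fin 2) k →ₐ[k] k).comp
      ((aeval ![X 0, C β] : MvPolynomial (Fin 2) k →ₐ[k] MvPolynomial (Fin 2) k).comp (sc c))) =
      (aeval ![x, β, c] : MvPolynomial (Fin 3) k →ₐ[k] k) := by
    apply MvPolynomial.algHom_ext
    intro i
    rw [AlgHom.comp_apply, AlgHom.comp_apply, aeval_X]
    unfold sc
    rw [aeval_X]
    fin_cases i
    · change aeval ![x, 0] (aeval ![X 0, C β] (X 0 : MvPolynomial (Fin 2) k)) = x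
      rw [aeval_X]
      change aeval ![x, 0] (X 0 : MvPolynomial (Fin 2) k) = x
      rw [aeval_X]
      rfl
    · change aeval ![x, 0] (aeval ![X 0, C β] (X 1 : MvPolynomial (Fin 2) k)) = β
      rw [aeval_X]
      change aeval ![x, 0] (C β : MvPolynomial (Fin 2) k) = β
      rw [algHom_C]
      rfl
    · change aeval ![x, 0] (aeval ![X 0, C β] (C c : MvPolynomial (Fin 2) k)) = c
      rw [algHom_C, AlgHom.commutes]
      rfl
  have h2 := congrArg (fun f => f F) h1
  rw [AlgHom.comp_apply, AlgHom.comp_apply, h0, map_zero] at h2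
  exact h2.symm

theorem sc_leading (c : k) (C' : P4 k) (h : sc c (PPX.H85.Ph C').leadingCoeff ≠ 0) :
    ((PPX.H85.Ph C').map (sc c).toRingHom).leadingCoeff = sc c (PPX.H85.Ph C').leadingCoeff :=
  Polynomial.leadingCoeff_map_of_leadingCoeff_ne_zero _ h

theorem intAt {K : Type u} [Field K] [Algebra k K] (e : Fin 4 → K) {v : Ideal (P4 k)}
    (hker : ∀ Q : P4 k, aeval e Q = 0 ↔ Q ∈ v) (C' : P4 k) (hV : Van v C') (β c x : k)
    (h : eval ![x, β, c] (PPX.H85.Ph C').leadingCoeff ≠ 0) :
    IntAt (e 0) (e 1) β (e 3 + algebraMap k K c * e 2) := by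
  have h1 := sc_ne β c x _ h
  have h2 : sc c (PPX.H85.Ph C').leadingCoeff ≠ 0 := by
    intro h0
    rw [h0, map_zero] at h1
    exact h1 rfl
  refine ⟨(PPX.H85.Ph C').map (sc c).toRingHom, ?_, ?_⟩
  · rw [sc_leading c C' h2]
    exact h1
  · rw [Polynomial.eval₂_map]
    have h3 := PPX.H85.Ph_eval ((aeval ![e 0, e 1] : MvPolynomial (Fin 2) k →ₐ[k] K).comp (sc c))
      (e 3 + algebraMap k K c * e 2) C'
    have h4 : ((aeval ![e 0, e 1] : MvPolynomial (Fin 2) k →ₐ[k] K).comp (sc c)).toRingHom =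
        (aeval ![e 0, e 1] : MvPolynomial (Fin 2) k →ₐ[k] K).toRingHom.comp (sc c).toRingHom := rfl
    rw [h4] at h3
    rw [h3]
    have h5 := (hker _).2 (hV c)
    have h6 : ((aeval e : P4 k →ₐ[k] K).comp (sb c)) =
        aeval ![((aeval ![e 0, e 1] : MvPolynomial (Fin 2) k →ₐ[k] K).comp (sc c)) (X 0),
          ((aeval ![e 0, e 1] : MvPolynomial (Fin 2) k →ₐ[k] K).comp (sc c)) (X 1),
          ((aeval ![e 0, e 1] : MvPolynomial (Fin 2) k →ₐ[k] K).comp (sc c)) (X 2),
          e 3 + algebraMap k K c * e 2] := by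
      apply MvPolynomial.algHom_ext
      intro i
      rw [AlgHom.comp_apply, aeval_X]
      unfold sb
      rw [aeval_X]
      simp only [AlgHom.comp_apply, sc, aeval_X]
      fin_cases i
      · change aeval e (X 0) = aeval ![e 0, e 1] (X 0 : MvPolynomial (Fin 2) k)
        rw [aeval_X, aeval_X]
        rfl
      · change aeval e (X 1) = aeval ![e 0, e 1] (X 1 : MvPolynomial (Fin 2) k)
        rw [aeval_X, aeval_X]
        rfl
      · change aeval e (C c) = aeval ![e 0, e 1] (C c : MvPolynomial (Fin 2) k)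
        rw [algHom_C, algHom_C]
      · change aeval e (X 3 + C c * X 2) = e 3 + algebraMap k K c * e 2
        rw [map_add, map_mul, aeval_X, aeval_X, algHom_C]
    rw [← h6, AlgHom.comp_apply]
    exact h5

theorem deg_leading (C' : P4 k) : degreeOf 1 (PPX.H85.Ph C').leadingCoeff ≤ degreeOf 1 C' := by
  unfold Polynomial.leadingCoeff
  rw [PPX.H85.Ph_apply]
  refine (degreeOf_coeff_finSuccEquiv _ _ _).trans ?_
  have : (Fin.succ 1 : Fin 4) = finRotate 4 1 := by decide
  rw [this, degreeOf_rename_of_injective (Equiv.injective _)]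

end

theorem pol (hpoa : PoaStmt.{u}) (hfra : FraStmt.{u}) : PolStmt.{u} := by
  intro k _ _ N₁ N₂ a b Θ r M₀ v hv hb R Q C' hR hQ hRi hRQ hC hV
  obtain ⟨K, _, _, e, D, hker, hind, halg, hD0, hD1, hD2⟩ := hfra a b Θ r M₀ v hv R Q hR hQ hRi hRQ
  have hθ : e 2 ≠ 0 := by
    intro h0
    apply hv.theta
    rw [← hker, aeval_X]
    exact h0
  have hC0 : PPX.H85.Ph C' ≠ 0 := by
    intro h0
    exact hC.ne_zero ((map_eq_zero_iff _ (PPX.H85.Ph (k := k)).injective).1 h0)
  refine le_trans (count_roots b hb (PPX.H85.Ph C').leadingCoeff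
    (Polynomial.leadingCoeff_ne_zero.2 hC0) ?_) (deg_leading C')
  intro j
  by_contra hne
  obtain ⟨p, q, hp, hq, hpq⟩ := two_points _ hne
  rw [eval_sz] at hp hq
  exact hpoa a b hb (e 0) (e 1) (e 2) (e 3) hind halg hθ D hD0 hD1 hD2 j (p 1) (q 1) hpq
    (intAt e hker C' hV (b j) (p 1) (p 0) hp) (intAt e hker C' hV (b j) (q 1) (q 0) hq)

end Pool.Agent.PPZ.H85
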